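import Pool.Agent.U492.DE.Slice

/-!
# Project DE, job Even: at most one even state for `t = 0` (MP_e4073d_mp)
-/

set_option autoImplicit false

open MeasureTheory Filter Topology Set
open scoped InnerProductSpace

namespace Pool.Agent.U492.DE

open Pool.Agent.U469.DE

noncomputable section

variable {φ : ℝ × ℝ → ℂ}

/-! ### slices -/

lemma c1 (h : φ ∈ Core) : ContDiff ℝ 1 φ := h.1

lemma c2 (h : φ ∈ Core) : HasCompactSupport φ := h.2

lemma slY (h : φ ∈ Core) (x : ℝ) : ContDiff ℝ 1 (fun y => φ (x, y)) :=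
  (c1 h).comp (contDiff_const.prodMk contDiff_id)

lemma slX (h : φ ∈ Core) (y : ℝ) : ContDiff ℝ 1 (fun x => φ (x, y)) :=
  (c1 h).comp (contDiff_id.prodMk contDiff_const)

lemma hdX (h : φ ∈ Core) (x y : ℝ) : HasDerivAt (fun x => φ (x, y)) (dX φ (x, y)) x := by
  have h1 : HasFDerivAt φ (fderiv ℝ φ (x, y)) (x, y) :=
    ((c1 h).differentiable one_ne_zero (x, y)).hasFDerivAt
  have h2 : HasDerivAt (fun x : ℝ => (x, y)) ((1 : ℝ), (0 : ℝ)) x :=
    (hasDerivAt_id x).prodMk (hasDerivAt_const x y)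
  exact h1.comp_hasDerivAt x h2

lemma hdY (h : φ ∈ Core) (x y : ℝ) : HasDerivAt (fun y => φ (x, y)) (dY φ (x, y)) y := by
  have h1 : HasFDerivAt φ (fderiv ℝ φ (x, y)) (x, y) :=
    ((c1 h).differentiable one_ne_zero (x, y)).hasFDerivAt
  have h2 : HasDerivAt (fun y : ℝ => (x, y)) ((0 : ℝ), (1 : ℝ)) y :=
    (hasDerivAt_const y x).prodMk (hasDerivAt_id y)
  exact h1.comp_hasDerivAt y h2

lemma cdX (h : φ ∈ Core) : Continuous (dX φ) :=
  ((c1 h).continuous_fderiv one_ne_zero).clm_apply continuous_const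

lemma cdY (h : φ ∈ Core) : Continuous (dY φ) :=
  ((c1 h).continuous_fderiv one_ne_zero).clm_apply continuous_const

lemma sdX (h : φ ∈ Core) : HasCompactSupport (dX φ) :=
  ((c2 h).fderiv ℝ).comp_left (g := fun L : (ℝ × ℝ) →L[ℝ] ℂ => L (1, 0)) (by simp)

lemma sdY (h : φ ∈ Core) : HasCompactSupport (dY φ) :=
  ((c2 h).fderiv ℝ).comp_left (g := fun L : (ℝ × ℝ) →L[ℝ] ℂ => L (0, 1)) (by simp)

lemma csY {F : Type*} [Zero F] {H : ℝ × ℝ → F} (h : HasCompactSupport H) (x : ℝ) :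
    HasCompactSupport (fun y => H (x, y)) := by
  refine HasCompactSupport.intro (K := Prod.snd '' tsupport H) (h.isCompact.image continuous_snd) ?_
  intro y hy
  by_contra hc
  exact hy ⟨(x, y), subset_tsupport _ hc, rfl⟩

lemma csX {F : Type*} [Zero F] {H : ℝ × ℝ → F} (h : HasCompactSupport H) (y : ℝ) :
    HasCompactSupport (fun x => H (x, y)) := by
  refine HasCompactSupport.intro (K := Prod.fst '' tsupport H) (h.isCompact.image continuous_fst) ?_
  intro x hx
  by_contra hc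
  exact hx ⟨(x, y), subset_tsupport _ hc, rfl⟩

lemma sq_cs {H : ℝ × ℝ → ℂ} (h : HasCompactSupport H) : HasCompactSupport (fun p => ‖H p‖ ^ 2) :=
  h.comp_left (g := fun z : ℂ => ‖z‖ ^ 2) (by simp)

lemma sq_int {H : ℝ × ℝ → ℂ} (hc : Continuous H) (h : HasCompactSupport H) :
    Integrable (fun p => ‖H p‖ ^ 2) :=
  (hc.norm.pow 2).integrable_of_hasCompactSupport (sq_cs h)

lemma sq_fub {H : ℝ × ℝ → ℂ} (hc : Continuous H) (h : HasCompactSupport H) :
    ∫ p, ‖H p‖ ^ 2 = ∫ x, ∫ y, ‖H (x, y)‖ ^ 2 :=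
  integral_prod _ (sq_int hc h)

lemma sq_intx {H : ℝ × ℝ → ℂ} (hc : Continuous H) (h : HasCompactSupport H) :
    Integrable (fun x => ∫ y, ‖H (x, y)‖ ^ 2) :=
  (sq_int hc h).integral_prod_left

/-- the part of the form with the derivatives across -/
def AA (φ : ℝ × ℝ → ℂ) (x : ℝ) : ℝ := ∫ y, ‖dX φ (x, y)‖ ^ 2

/-- the form of the slice over `x` -/
def EE (φ : ℝ × ℝ → ℂ) (x : ℝ) : ℝ := ee (fun y => φ (x, y)) (hgt 0 x)

lemma EE_eq (h : φ ∈ Core) (x : ℝ) :
    EE φ x = (∫ y, ‖dY φ (x, y)‖ ^ 2) + (∫ y, ‖φ (x, y)‖ ^ 2) / 4 - ‖φ (x, hgt 0 x)‖ ^ 2 := by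
  unfold EE ee
  simp only [fun y => (hdY h x y).deriv]

lemma EE_nonneg (h : φ ∈ Core) (x : ℝ) : 0 ≤ EE φ x := ee_nonneg (slY h x) (csY (c2 h) x) _

lemma AA_nonneg (x : ℝ) : 0 ≤ AA φ x := integral_nonneg fun _ => by positivity

lemma hgt_meas : Measurable (hgt 0) := by
  unfold hgt
  refine Measurable.ite ?_ measurable_const (Measurable.ite ?_ measurable_const measurable_const)
  · exact measurableSet_lt measurable_norm measurable_const
  · exact measurableSet_lt measurable_norm measurable_const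

lemma hor_int (h : φ ∈ Core) : Integrable (fun x => ‖φ (x, hgt 0 x)‖ ^ 2) := by
  refine Integrable.mono' (g := fun x => (∫ y, ‖dY φ (x, y)‖ ^ 2) + (∫ y, ‖φ (x, y)‖ ^ 2) / 4)
    ((sq_intx (cdY h) (sdY h)).add ((sq_intx (c1 h).continuous (c2 h)).div_const 4)) ?_ ?_
  · refine Measurable.aestronglyMeasurable ?_
    exact (((c1 h).continuous.measurable.comp (measurable_id.prodMk hgt_meas)).norm).pow_const 2
  · refine Eventually.of_forall fun x => ?_
    have h1 := EE_nonneg h x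
    rw [EE_eq h] at h1
    rw [Real.norm_eq_abs, abs_of_nonneg (by positivity)]
    linarith

lemma AE_int (h : φ ∈ Core) : Integrable (fun x => AA φ x + EE φ x) := by
  simp only [EE_eq h]
  exact (sq_intx (cdX h) (sdX h)).add (((sq_intx (cdY h) (sdY h)).add
    ((sq_intx (c1 h).continuous (c2 h)).div_const 4)).sub (hor_int h))

lemma Q_eq (h : φ ∈ Core) : Q 0 φ = (∫ x, (AA φ x + EE φ x)) - wal 0 φ := by
  have i1 : Integrable (fun x => AA φ x) := sq_intx (cdX h) (sdX h)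
  have i2 := sq_intx (cdY h) (sdY h)
  have i3 := (sq_intx (c1 h).continuous (c2 h)).div_const 4
  have i4 := hor_int h
  have i23 : Integrable (fun x => (∫ y, ‖dY φ (x, y)‖ ^ 2) + (∫ y, ‖φ (x, y)‖ ^ 2) / 4) := i2.add i3
  have i234 : Integrable (fun x => (∫ y, ‖dY φ (x, y)‖ ^ 2) + (∫ y, ‖φ (x, y)‖ ^ 2) / 4 -
    ‖φ (x, hgt 0 x)‖ ^ 2) := i23.sub i4
  have e1 : gX φ = ∫ x, AA φ x := sq_fub (cdX h) (sdX h)
  have e2 : gY φ = ∫ x, ∫ y, ‖dY φ (x, y)‖ ^ 2 := sq_fub (cdY h) (sdY h)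
  have e3 : nrm φ = ∫ x, ∫ y, ‖φ (x, y)‖ ^ 2 := sq_fub (c1 h).continuous (c2 h)
  have e4 : ∫ x, (AA φ x + EE φ x) = (∫ x, AA φ x) +
      ((∫ x, ∫ y, ‖dY φ (x, y)‖ ^ 2) + (∫ x, ∫ y, ‖φ (x, y)‖ ^ 2) / 4 -
        ∫ x, ‖φ (x, hgt 0 x)‖ ^ 2) := by
    simp only [EE_eq h]
    rw [integral_add i1 i234, integral_sub i23 i4, integral_add i2 i3, integral_div]
  rw [Q, e1, e2, e3, e4, hor]
  ring

/-! ### the average over the threshold state -/

/-- the threshold state -/
def psi (y : ℝ) : ℝ := Real.exp (-(|y + ste| / 2))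

lemma psi_cont : Continuous psi := by unfold psi; fun_prop

lemma psi_le (y : ℝ) : psi y ≤ 1 := Real.exp_le_one_iff.mpr (by have := abs_nonneg (y + ste); linarith)

lemma psi_pos (y : ℝ) : 0 < psi y := Real.exp_pos _

lemma psi_sq_le (y : ℝ) : psi y ^ 2 ≤ 1 := pow_le_one₀ (psi_pos y).le (psi_le y)

lemma psi_r (y : ℝ) (hy : -ste < y) : psi y = kr (-ste) y := by
  rw [psi, kr, abs_of_pos (by linarith)]
  congr 3
  ring

lemma psi_l (y : ℝ) (hy : y ≤ -ste) : psi y = kl (-ste) y := by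
  rw [psi, kl, abs_of_nonpos (by linarith)]
  congr 1
  ring

lemma psi_sq_int : Integrable (fun y => psi y ^ 2) := by
  have h1 : IntegrableOn (fun y => psi y ^ 2) (Iic (-ste)) :=
    (kl_sq_int (-ste)).congr_fun (fun y hy => by simp only [psi_l y hy]) measurableSet_Iic
  have h2 : IntegrableOn (fun y => psi y ^ 2) (Ioi (-ste)) :=
    (kr_sq_int (-ste)).congr_fun (fun y hy => by simp only [psi_r y hy]) measurableSet_Ioi
  have h3 := h1.union h2
  rwa [Iic_union_Ioi, integrableOn_univ] at h3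

lemma psi_sq : ∫ y, psi y ^ 2 = 2 := by
  rw [split psi_sq_int (-ste)]
  have h1 : ∫ y in Iic (-ste), psi y ^ 2 = 1 := by
    rw [← kl_sq (-ste)]
    exact setIntegral_congr_fun measurableSet_Iic fun y hy => by simp only [psi_l y hy]
  have h2 : ∫ y in Ioi (-ste), psi y ^ 2 = 1 := by
    rw [← kr_sq (-ste)]
    exact setIntegral_congr_fun measurableSet_Ioi fun y hy => by simp only [psi_r y hy]
  rw [h1, h2]; norm_num

/-- the mean over the slice -/
def mean (H : ℝ × ℝ → ℂ) (x : ℝ) : ℂ := (1 / 2) * ∫ y, H (x, y) * (psi y : ℂ)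

lemma mean_cont {H : ℝ × ℝ → ℂ} (hc : Continuous H) (hs : HasCompactSupport H) :
    Continuous (mean H) := by
  refine continuous_const.mul ?_
  rw [← continuousOn_univ]
  refine continuousOn_integral_of_compact_support (k := Prod.snd '' tsupport H)
    (hs.isCompact.image continuous_snd) ?_ ?_
  · refine Continuous.continuousOn ?_
    exact hc.mul (Complex.continuous_ofReal.comp (psi_cont.comp continuous_snd))
  · intro x y _ hy
    by_cases h0 : H (x, y) = 0
    · rw [h0, zero_mul]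
    · exact absurd ⟨(x, y), subset_tsupport _ h0, rfl⟩ hy

lemma mean_zero {H : ℝ × ℝ → ℂ} {x : ℝ} (hx : ∀ y, H (x, y) = 0) : mean H x = 0 := by
  unfold mean
  simp [hx]

lemma mean_cs {H : ℝ × ℝ → ℂ} (hs : HasCompactSupport H) : HasCompactSupport (mean H) := by
  refine HasCompactSupport.intro (K := Prod.fst '' tsupport H)
    (hs.isCompact.image continuous_fst) ?_
  intro x hx
  refine mean_zero fun y => ?_
  by_contra hc
  exact hx ⟨(x, y), subset_tsupport _ hc, rfl⟩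

lemma mean_int {H : ℝ × ℝ → ℂ} (hc : Continuous H) (hs : HasCompactSupport H) (x : ℝ) :
    Integrable (fun y => H (x, y) * (psi y : ℂ)) :=
  int_mul (v := fun y => H (x, y)) (hc.comp (continuous_const.prodMk continuous_id)) (csY hs x)
    psi_cont

lemma mean_deriv (h : φ ∈ Core) (x : ℝ) : HasDerivAt (mean φ) (mean (dX φ) x) x := by
  refine HasDerivAt.const_mul _ ?_
  obtain ⟨M, hM⟩ := (sdX h).exists_bound_of_continuous (cdX h)
  refine (hasDerivAt_integral_of_dominated_loc_of_deriv_le (μ := volume) (s := univ)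
    (F := fun x y => φ (x, y) * (psi y : ℂ)) (F' := fun x y => dX φ (x, y) * (psi y : ℂ))
    (bound := (Prod.snd '' tsupport (dX φ)).indicator fun _ => M) univ_mem ?_ ?_ ?_ ?_ ?_ ?_).2
  · exact Eventually.of_forall fun x' =>
      (mean_int (c1 h).continuous (c2 h) x').aestronglyMeasurable
  · exact mean_int (c1 h).continuous (c2 h) x
  · exact (mean_int (cdX h) (sdX h) x).aestronglyMeasurable
  · refine Eventually.of_forall fun y x' _ => ?_
    by_cases hy : y ∈ Prod.snd '' tsupport (dX φ)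
    · rw [indicator_of_mem hy, norm_mul, Complex.norm_real, Real.norm_eq_abs,
        abs_of_pos (psi_pos y)]
      calc ‖dX φ (x', y)‖ * psi y ≤ ‖dX φ (x', y)‖ * 1 := by
            gcongr
            exact psi_le y
        _ ≤ M := by rw [mul_one]; exact hM _
    · rw [indicator_of_notMem hy]
      have h0 : dX φ (x', y) = 0 := by
        by_contra hc
        exact hy ⟨(x', y), subset_tsupport _ hc, rfl⟩
      simp [h0]
  · have hK : IsCompact (Prod.snd '' tsupport (dX φ)) := (sdX h).isCompact.image continuous_snd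
    rw [integrable_indicator_iff hK.measurableSet]
    exact integrableOn_const hK.measure_ne_top
  · exact Eventually.of_forall fun y x' _ => (hdX h x' y).mul_const _

lemma mean_cd (h : φ ∈ Core) : ContDiff ℝ 1 (mean φ) := by
  rw [contDiff_one_iff_deriv]
  refine ⟨fun x => (mean_deriv h x).differentiableAt, ?_⟩
  have : deriv (mean φ) = mean (dX φ) := funext fun x => (mean_deriv h x).deriv
  rw [this]
  exact mean_cont (cdX h) (sdX h)

/-! ### Pythagoras -/

lemma pyth {H : ℝ × ℝ → ℂ} (hc : Continuous H) (hs : HasCompactSupport H) (x : ℝ) {s : Set ℝ} :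
    ∫ y in s, ‖H (x, y) - mean H x * (psi y : ℂ)‖ ^ 2 ≤ ∫ y, ‖H (x, y)‖ ^ 2 := by
  set m := mean H x with hm
  have hc' : Continuous fun y => H (x, y) := hc.comp (continuous_const.prodMk continuous_id)
  have i1 : Integrable (fun y => ‖H (x, y)‖ ^ 2) :=
    (hc'.norm.pow 2).integrable_of_hasCompactSupport (csY (sq_cs hs) x)
  have i2 : Integrable (fun y => ⟪m, H (x, y) * (psi y : ℂ)⟫_ℝ) := (mean_int hc hs x).const_inner m
  have i3 : Integrable (fun y => ‖m‖ ^ 2 * psi y ^ 2) := psi_sq_int.const_mul _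
  have hpt : ∀ y, ‖H (x, y) - m * (psi y : ℂ)‖ ^ 2 =
      ‖H (x, y)‖ ^ 2 - 2 * ⟪m, H (x, y) * (psi y : ℂ)⟫_ℝ + ‖m‖ ^ 2 * psi y ^ 2 := by
    intro y
    rw [norm_sub_sq_real, norm_mul, Complex.norm_real, Real.norm_eq_abs, mul_pow, sq_abs]
    congr 2
    congr 1
    have e1 : m * (psi y : ℂ) = psi y • m := by rw [Complex.real_smul, mul_comm]
    have e2 : H (x, y) * (psi y : ℂ) = psi y • H (x, y) := by rw [Complex.real_smul, mul_comm]
    rw [e1, e2, real_inner_smul_right, real_inner_smul_right, real_inner_comm]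
  have i12 : Integrable (fun y => ‖H (x, y)‖ ^ 2 - 2 * ⟪m, H (x, y) * (psi y : ℂ)⟫_ℝ) :=
    i1.sub (i2.const_mul 2)
  have i0 : Integrable (fun y => ‖H (x, y) - m * (psi y : ℂ)‖ ^ 2) := by
    simp only [hpt]
    exact i12.add i3
  have h1 : ∫ y in s, ‖H (x, y) - m * (psi y : ℂ)‖ ^ 2 ≤
      ∫ y, ‖H (x, y) - m * (psi y : ℂ)‖ ^ 2 :=
    setIntegral_le_integral i0 (Eventually.of_forall fun _ => by positivity)
  refine h1.trans ?_
  simp only [hpt]
  rw [integral_add i12 i3, integral_sub i1 (i2.const_mul 2), integral_const_mul,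
    integral_const_mul, psi_sq, integral_inner (mean_int hc hs x)]
  have h2 : ∫ y, H (x, y) * (psi y : ℂ) = (2 : ℝ) • m := by
    rw [hm, mean, Complex.real_smul]
    push_cast
    ring
  rw [h2, real_inner_smul_right, real_inner_self_eq_norm_sq]
  nlinarith [sq_nonneg ‖m‖]

/-! ### the half plane -/

/-- the component orthogonal to the threshold state -/
def ww (φ : ℝ × ℝ → ℂ) (x y : ℝ) : ℂ := φ (x, y) - mean φ x * (psi y : ℂ)

/-- its derivative across -/
def wx (φ : ℝ × ℝ → ℂ) (x y : ℝ) : ℂ := dX φ (x, y) - mean (dX φ) x * (psi y : ℂ)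

lemma ww_cd (h : φ ∈ Core) (y : ℝ) : ContDiff ℝ 1 (fun x => ww φ x y) :=
  (slX h y).sub ((mean_cd h).mul contDiff_const)

lemma ww_cs (h : φ ∈ Core) (y : ℝ) : HasCompactSupport (fun x => ww φ x y) := by
  refine HasCompactSupport.intro (K := Prod.fst '' tsupport φ)
    ((c2 h).isCompact.image continuous_fst) ?_
  intro x hx
  have h0 : ∀ y, φ (x, y) = 0 := by
    intro y
    by_contra hc
    exact hx ⟨(x, y), subset_tsupport _ hc, rfl⟩
  simp [ww, h0, mean_zero h0]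

lemma ww_deriv (h : φ ∈ Core) (x y : ℝ) : deriv (fun x => ww φ x y) x = wx φ x y :=
  ((hdX h x y).sub ((mean_deriv h x).mul_const _)).deriv

/-- the density on the strip of the step -/
def GG (φ : ℝ × ℝ → ℂ) (x y : ℝ) : ℝ := ‖wx φ x y‖ ^ 2 + 25 / 16 * ‖ww φ x y‖ ^ 2

lemma ww_cont (h : φ ∈ Core) : Continuous fun p : ℝ × ℝ => ww φ p.1 p.2 := by
  have h1 := mean_cont (c1 h).continuous (c2 h)
  have h2 := psi_cont
  have h3 := (c1 h).continuous
  unfold ww
  fun_prop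

lemma wx_cont (h : φ ∈ Core) : Continuous fun p : ℝ × ℝ => wx φ p.1 p.2 := by
  have h1 := mean_cont (cdX h) (sdX h)
  have h2 := psi_cont
  have h3 := cdX h
  unfold wx
  fun_prop

lemma GG_int (h : φ ∈ Core) : Integrable (Function.uncurry (GG φ))
    ((volume.restrict (Ioi rad)).prod (volume.restrict (Ioo (-ste) 0))) := by
  rw [Measure.prod_restrict]
  set K : Set ℝ := Prod.fst '' tsupport φ ∪ Prod.fst '' tsupport (dX φ) with hK
  have hKc : IsCompact K := ((c2 h).isCompact.image continuous_fst).union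
    ((sdX h).isCompact.image continuous_fst)
  have hcont : Continuous (Function.uncurry (GG φ)) :=
    ((wx_cont h).norm.pow 2).add (continuous_const.mul ((ww_cont h).norm.pow 2))
  have h1 : IntegrableOn (Function.uncurry (GG φ)) (K ×ˢ Icc (-ste) 0) (volume.prod volume) :=
    hcont.continuousOn.integrableOn_compact (hKc.prod isCompact_Icc)
  refine h1.of_forall_sdiff_eq_zero (measurableSet_Ioi.prod measurableSet_Ioo) ?_
  rintro ⟨x, y⟩ ⟨⟨_, hy⟩, hn⟩
  have hx : x ∉ K := fun hx => hn ⟨hx, Ioo_subset_Icc_self hy⟩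
  have h0 : ∀ y, φ (x, y) = 0 := by
    intro y
    by_contra hc
    exact hx (Or.inl ⟨(x, y), subset_tsupport _ hc, rfl⟩)
  have h0' : ∀ y, dX φ (x, y) = 0 := by
    intro y
    by_contra hc
    exact hx (Or.inr ⟨(x, y), subset_tsupport _ hc, rfl⟩)
  simp [GG, wx, ww, h0, h0', mean_zero h0, mean_zero h0']

lemma ste_eq : ste = 1 / 4 := rfl

lemma strip (h : φ ∈ Core) (x : ℝ) (hx : rad < x) :
    ∫ y in Ioo (-ste) 0, GG φ x y ≤ AA φ x + EE φ x := by
  have hh : hgt 0 x = -ste := by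
    have h0 : |x| = x := abs_of_pos (by unfold rad at hx; linarith)
    unfold hgt
    rw [h0, if_neg (by unfold del; unfold rad at hx; linarith), if_neg (by linarith)]
  have h1 : ∫ y in Ioo (-ste) 0, ‖wx φ x y‖ ^ 2 ≤ AA φ x := pyth (cdX h) (sdX h) x
  have h2 : ∀ y ∈ Ioo (-ste) 0, ‖ww φ x y‖ ^ 2 ≤ 8 / 5 * EE φ x := by
    intro y hy
    rw [EE, hh]
    have h3 := slice (slY h x) (csY (c2 h) x) (-ste) y hy.1.le (by rw [ste_eq]; linarith [hy.2])
      (mean φ x) (by
        rw [mean]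
        simp only [sub_neg_eq_add, psi]
        ring)
    simpa only [sub_neg_eq_add, ww, psi] using h3
  have cw : Continuous fun y => ww φ x y := (ww_cont h).comp (continuous_const.prodMk continuous_id)
  have cx : Continuous fun y => wx φ x y := (wx_cont h).comp (continuous_const.prodMk continuous_id)
  have i1 : IntegrableOn (fun y => ‖wx φ x y‖ ^ 2) (Ioo (-ste) 0) :=
    ((cx.norm.pow 2).integrableOn_Icc).mono_set Ioo_subset_Icc_self
  have i2 : IntegrableOn (fun y => ‖ww φ x y‖ ^ 2) (Ioo (-ste) 0) :=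
    ((cw.norm.pow 2).integrableOn_Icc).mono_set Ioo_subset_Icc_self
  have h4 : ∫ y in Ioo (-ste) 0, ‖ww φ x y‖ ^ 2 ≤ 2 / 5 * EE φ x := by
    have h5 : ∫ y in Ioo (-ste) 0, ‖ww φ x y‖ ^ 2 ≤ ∫ y in Ioo (-ste) 0, 8 / 5 * EE φ x :=
      setIntegral_mono_on i2 (integrableOn_const (by simp)) measurableSet_Ioo h2
    refine h5.trans (le_of_eq ?_)
    rw [setIntegral_const, Real.volume_real_Ioo_of_le (by rw [ste_eq]; norm_num), ste_eq]
    simp only [smul_eq_mul]
    ring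
  have h6 : ∫ y in Ioo (-ste) 0, GG φ x y = (∫ y in Ioo (-ste) 0, ‖wx φ x y‖ ^ 2) +
      25 / 16 * ∫ y in Ioo (-ste) 0, ‖ww φ x y‖ ^ 2 := by
    unfold GG
    rw [integral_add i1 (i2.const_mul _), integral_const_mul]
  rw [h6]
  have := EE_nonneg h x
  linarith

lemma wall_pt (a b : ℂ) (s : ℝ) (hs : s ^ 2 ≤ 1) :
    ‖a‖ ^ 2 - 5 * ‖b‖ ^ 2 ≤ 5 / 4 * ‖a - b * (s : ℂ)‖ ^ 2 := by
  have h1 : ‖b * (s : ℂ)‖ ^ 2 ≤ ‖b‖ ^ 2 := by
    rw [norm_mul, mul_pow, Complex.norm_real, Real.norm_eq_abs, sq_abs]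
    nlinarith [sq_nonneg ‖b‖]
  have h2 : ‖a‖ ≤ ‖a - b * (s : ℂ)‖ + ‖b * (s : ℂ)‖ := by
    have := norm_add_le (a - b * (s : ℂ)) (b * (s : ℂ))
    simpa using this
  have h3 : ‖a‖ ^ 2 ≤ (‖a - b * (s : ℂ)‖ + ‖b * (s : ℂ)‖) ^ 2 :=
    pow_le_pow_left₀ (norm_nonneg _) h2 2
  nlinarith [sq_nonneg (‖a - b * (s : ℂ)‖ - 4 * ‖b * (s : ℂ)‖)]

/-- the half plane `x > rad` -/
lemma half (h : φ ∈ Core) :
    (∫ y in Ioo (-ste) 0, ‖φ (rad, y)‖ ^ 2) - 5 / 4 * ‖mean φ rad‖ ^ 2 ≤
      ∫ x in Ioi rad, (AA φ x + EE φ x) := by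
  have hG := GG_int h
  have h1 : ∫ x in Ioi rad, ∫ y in Ioo (-ste) 0, GG φ x y ≤
      ∫ x in Ioi rad, (AA φ x + EE φ x) :=
    setIntegral_mono_on hG.integral_prod_left (AE_int h).integrableOn measurableSet_Ioi
      fun x hx => strip h x hx
  have h2 : ∫ x in Ioi rad, ∫ y in Ioo (-ste) 0, GG φ x y =
      ∫ y in Ioo (-ste) 0, ∫ x in Ioi rad, GG φ x y := integral_integral_swap hG
  have c1' : Continuous fun y => φ (rad, y) := (slY h rad).continuous
  have i1 : IntegrableOn (fun y => ‖φ (rad, y)‖ ^ 2) (Ioo (-ste) 0) :=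
    ((c1'.norm.pow 2).integrableOn_Icc).mono_set Ioo_subset_Icc_self
  have i2 : IntegrableOn (fun _ : ℝ => 5 * ‖mean φ rad‖ ^ 2) (Ioo (-ste) 0) :=
    integrableOn_const (by simp)
  have h3 : ∫ y in Ioo (-ste) 0, (‖φ (rad, y)‖ ^ 2 - 5 * ‖mean φ rad‖ ^ 2) ≤
      ∫ y in Ioo (-ste) 0, ∫ x in Ioi rad, GG φ x y := by
    refine setIntegral_mono_on (i1.sub i2) hG.integral_prod_right measurableSet_Ioo fun y _ => ?_
    have h4 := across (ww_cd h y) (ww_cs h y) rad
    simp only [ww_deriv h] at h4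
    exact (wall_pt _ _ _ (psi_sq_le y)).trans h4
  rw [integral_sub i1 i2, setIntegral_const,
    Real.volume_real_Ioo_of_le (by rw [ste_eq]; norm_num)] at h3
  have h5 : (0 - -ste) • (5 * ‖mean φ rad‖ ^ 2) = 5 / 4 * ‖mean φ rad‖ ^ 2 := by
    rw [ste_eq, smul_eq_mul]; ring
  rw [h5] at h3
  linarith

/-! ### evenness -/

lemma AA_even (h : φ ∈ Core) (he : IsEven φ) (x : ℝ) : AA φ (-x) = AA φ x := by
  unfold AA
  congr 1
  funext y
  have h1 : HasDerivAt (fun x => φ (-x, y)) (-dX φ (-x, y)) x := by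
    have := (hdX h (-x) y).scomp x (hasDerivAt_neg x)
    simpa [Function.comp_def] using this
  have h2 : (fun x => φ (-x, y)) = fun x => φ (x, y) := funext fun x => he x y
  rw [h2] at h1
  rw [← h1.unique (hdX h x y), norm_neg]

lemma EE_even (he : IsEven φ) (x : ℝ) : EE φ (-x) = EE φ x := by
  unfold EE
  have h1 : (fun y => φ (-x, y)) = fun y => φ (x, y) := funext fun y => he x y
  have h2 : hgt 0 (-x) = hgt 0 x := by unfold hgt; rw [abs_neg]
  rw [h1, h2]

theorem jobEven : JobEven := by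
  refine ⟨1, zero_le_one, fun φ h he => ?_⟩
  rw [Q_eq h]
  have h1 : ∫ x, (AA φ x + EE φ x) = 2 * ∫ x in Ioi (0 : ℝ), (AA φ x + EE φ x) := by
    rw [← integral_comp_abs (f := fun x => AA φ x + EE φ x)]
    congr 1
    funext x
    rcases abs_choice x with hx | hx
    · rw [hx]
    · rw [hx, AA_even h he, EE_even he]
  have h2 : ∫ x in Ioi rad, (AA φ x + EE φ x) ≤ ∫ x in Ioi (0 : ℝ), (AA φ x + EE φ x) :=
    setIntegral_mono_set (AE_int h).integrableOn
      (Eventually.of_forall fun x => add_nonneg (AA_nonneg x) (EE_nonneg h x))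
      (Ioi_subset_Ioi (by unfold rad; norm_num)).eventuallyLE
  have h3 := half h
  have h4 : wal 0 φ = 2 * ∫ y in Ioo (-ste) 0, ‖φ (rad, y)‖ ^ 2 := by
    unfold wal
    rw [← integral_const_mul]
    refine setIntegral_congr_fun measurableSet_Ioo fun y hy => ?_
    have hp : pos y = rad := by unfold pos; rw [if_pos hy.2]
    simp only [hp]
    rw [he]
    ring
  have h5 : ‖mean φ rad‖ ^ 2 = 1 / 4 * ‖ell φ‖ ^ 2 := by
    have : mean φ rad = (1 / 2) * ell φ := rfl
    rw [this, norm_mul, mul_pow]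
    norm_num
  rw [h4, h1]
  rw [h5] at h3
  nlinarith [sq_nonneg ‖ell φ‖]

end

end Pool.Agent.U492.DE
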