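import Pool.Agent.U469.DE.S

/-!
# Slice inequalities for the job `Even` of project DE (MP_e4073d_mp)
-/

set_option autoImplicit false

open MeasureTheory Filter Topology Set
open scoped InnerProductSpace

namespace Pool.Agent.U492.DE

section slice

variable {v : ℝ → ℂ}

lemma cont_d (hv : ContDiff ℝ 1 v) : Continuous (deriv v) := hv.continuous_deriv le_rfl

lemma hasD (hv : ContDiff ℝ 1 v) (x : ℝ) : HasDerivAt v (deriv v x) x :=
  (hv.differentiable one_ne_zero x).hasDerivAt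

lemma cs_of_zero {F : Type*} [Zero F] {g : ℝ → F} (hs : HasCompactSupport v)
    (h : ∀ y, v y = 0 → g y = 0) : HasCompactSupport g := by
  refine hs.mono ?_
  intro y hy
  simp only [Function.mem_support] at hy ⊢
  exact fun h0 => hy (h y h0)

lemma cs_gen {F : Type*} [Zero F] {g : ℝ → F} (hs : HasCompactSupport v)
    (h : ∀ y, v y = 0 → deriv v y = 0 → g y = 0) : HasCompactSupport g := by
  refine HasCompactSupport.intro (K := tsupport v) hs ?_
  intro y hy
  refine h y (image_eq_zero_of_notMem_tsupport hy) ?_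
  by_contra hc
  exact hy (support_deriv_subset hc)

lemma cs_nsq (hs : HasCompactSupport v) : HasCompactSupport (fun y => ‖v y‖ ^ 2) :=
  cs_of_zero hs (fun y hy => by simp [hy])

lemma deriv_nsq (hv : ContDiff ℝ 1 v) (y : ℝ) :
    deriv (fun y => ‖v y‖ ^ 2) y = 2 * ⟪v y, deriv v y⟫_ℝ := (hasD hv y).norm_sq.deriv

lemma norm_right (hv : ContDiff ℝ 1 v) (hs : HasCompactSupport v) (c : ℝ) :
    ∫ y in Ioi c, 2 * ⟪v y, deriv v y⟫_ℝ = -‖v c‖ ^ 2 := by
  have h1 : ContDiff ℝ 1 (fun y => ‖v y‖ ^ 2) := hv.norm_sq ℝ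
  have h3 := (cs_nsq hs).integral_Ioi_deriv_eq h1 c
  simpa only [deriv_nsq hv] using h3

lemma norm_left (hv : ContDiff ℝ 1 v) (hs : HasCompactSupport v) (c : ℝ) :
    ∫ y in Iic c, 2 * ⟪v y, deriv v y⟫_ℝ = ‖v c‖ ^ 2 := by
  have h1 : ContDiff ℝ 1 (fun y => ‖v y‖ ^ 2) := hv.norm_sq ℝ
  have h3 := (cs_nsq hs).integral_Iic_deriv_eq h1 c
  simpa only [deriv_nsq hv] using h3

lemma int_d (hv : ContDiff ℝ 1 v) (hs : HasCompactSupport v) :
    Integrable (fun y => ‖deriv v y‖ ^ 2) := by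
  refine ((cont_d hv).norm.pow 2).integrable_of_hasCompactSupport ?_
  exact cs_of_zero (v := deriv v) hs.deriv (fun y hy => by simp [hy])

lemma int_v (hv : ContDiff ℝ 1 v) (hs : HasCompactSupport v) :
    Integrable (fun y => ‖v y‖ ^ 2) :=
  (hv.continuous.norm.pow 2).integrable_of_hasCompactSupport (cs_nsq hs)

lemma int_in (hv : ContDiff ℝ 1 v) (hs : HasCompactSupport v) :
    Integrable (fun y => ⟪v y, deriv v y⟫_ℝ) := by
  refine (hv.continuous.inner (cont_d hv)).integrable_of_hasCompactSupport ?_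
  exact cs_of_zero hs (fun y hy => by simp [hy])

lemma int_zr (hv : ContDiff ℝ 1 v) (hs : HasCompactSupport v) :
    Integrable (fun y => ‖deriv v y + v y / 2‖ ^ 2) :=
  (((cont_d hv).add (hv.continuous.div_const 2)).norm.pow 2).integrable_of_hasCompactSupport
    (cs_gen hs (fun y h1 h2 => by simp [h1, h2]))

lemma int_zl (hv : ContDiff ℝ 1 v) (hs : HasCompactSupport v) :
    Integrable (fun y => ‖deriv v y - v y / 2‖ ^ 2) :=
  (((cont_d hv).sub (hv.continuous.div_const 2)).norm.pow 2).integrable_of_hasCompactSupport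
    (cs_gen hs (fun y h1 h2 => by simp [h1, h2]))

/-- the form of the slice -/
noncomputable def ee (v : ℝ → ℂ) (c : ℝ) : ℝ :=
  (∫ y, ‖deriv v y‖ ^ 2) + (∫ y, ‖v y‖ ^ 2) / 4 - ‖v c‖ ^ 2

lemma sq_add (a b : ℂ) : ‖a + b / 2‖ ^ 2 = ‖a‖ ^ 2 + ⟪b, a⟫_ℝ + ‖b‖ ^ 2 / 4 := by
  have h : b / 2 = (1 / 2 : ℝ) • b := by
    rw [Complex.real_smul]; push_cast; ring
  rw [h, norm_add_sq_real, real_inner_smul_right, norm_smul, real_inner_comm]
  rw [Real.norm_eq_abs, abs_of_pos (by norm_num : (0:ℝ) < 1 / 2)]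
  ring

lemma sq_sub (a b : ℂ) : ‖a - b / 2‖ ^ 2 = ‖a‖ ^ 2 - ⟪b, a⟫_ℝ + ‖b‖ ^ 2 / 4 := by
  have h : b / 2 = (1 / 2 : ℝ) • b := by
    rw [Complex.real_smul]; push_cast; ring
  rw [h, norm_sub_sq_real, real_inner_smul_right, norm_smul, real_inner_comm]
  rw [Real.norm_eq_abs, abs_of_pos (by norm_num : (0:ℝ) < 1 / 2)]
  ring

lemma e_right (hv : ContDiff ℝ 1 v) (hs : HasCompactSupport v) (c : ℝ) :
    ∫ y in Ioi c, ‖deriv v y + v y / 2‖ ^ 2 =
      (∫ y in Ioi c, ‖deriv v y‖ ^ 2) + (∫ y in Ioi c, ‖v y‖ ^ 2) / 4 - ‖v c‖ ^ 2 / 2 := by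
  have h := norm_right hv hs c
  rw [integral_const_mul] at h
  have h1 := (int_d hv hs).integrableOn (s := Ioi c)
  have h2 := (int_v hv hs).integrableOn (s := Ioi c)
  have h3 := (int_in hv hs).integrableOn (s := Ioi c)
  have h4 : IntegrableOn (fun y => ‖deriv v y‖ ^ 2 + ⟪v y, deriv v y⟫_ℝ) (Ioi c) := h1.add h3
  simp only [sq_add]
  rw [integral_add h4 (h2.div_const 4), integral_add h1 h3, integral_div]
  linarith

lemma e_left (hv : ContDiff ℝ 1 v) (hs : HasCompactSupport v) (c : ℝ) :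
    ∫ y in Iic c, ‖deriv v y - v y / 2‖ ^ 2 =
      (∫ y in Iic c, ‖deriv v y‖ ^ 2) + (∫ y in Iic c, ‖v y‖ ^ 2) / 4 - ‖v c‖ ^ 2 / 2 := by
  have h := norm_left hv hs c
  rw [integral_const_mul] at h
  have h1 := (int_d hv hs).integrableOn (s := Iic c)
  have h2 := (int_v hv hs).integrableOn (s := Iic c)
  have h3 := (int_in hv hs).integrableOn (s := Iic c)
  have h4 : IntegrableOn (fun y => ‖deriv v y‖ ^ 2 - ⟪v y, deriv v y⟫_ℝ) (Iic c) := h1.sub h3
  simp only [sq_sub]
  rw [integral_add h4 (h2.div_const 4), integral_sub h1 h3, integral_div]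
  linarith

lemma split {F : Type*} [NormedAddCommGroup F] [NormedSpace ℝ F] {g : ℝ → F} (hg : Integrable g)
    (c : ℝ) : (∫ y, g y) = (∫ y in Iic c, g y) + ∫ y in Ioi c, g y := by
  rw [← integral_add_compl (measurableSet_Iic (a := c)) hg, compl_Iic]

lemma e_eq (hv : ContDiff ℝ 1 v) (hs : HasCompactSupport v) (c : ℝ) :
    ee v c = (∫ y in Iic c, ‖deriv v y - v y / 2‖ ^ 2) +
      ∫ y in Ioi c, ‖deriv v y + v y / 2‖ ^ 2 := by
  rw [e_right hv hs, e_left hv hs, ee, split (int_d hv hs) c, split (int_v hv hs) c]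
  ring

lemma ee_nonneg (hv : ContDiff ℝ 1 v) (hs : HasCompactSupport v) (c : ℝ) : 0 ≤ ee v c := by
  rw [e_eq hv hs]
  exact add_nonneg (integral_nonneg fun _ => by positivity) (integral_nonneg fun _ => by positivity)

/-- `v` times a real C¹ function -/
lemma cd_mul (hv : ContDiff ℝ 1 v) {k : ℝ → ℝ} (hk : ContDiff ℝ 1 k) :
    ContDiff ℝ 1 (fun y => v y * (k y : ℂ)) :=
  hv.mul (Complex.ofRealCLM.contDiff.comp hk)

lemma cs_mul (hs : HasCompactSupport v) (k : ℝ → ℝ) :
    HasCompactSupport (fun y => v y * (k y : ℂ)) :=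
  cs_of_zero hs (fun y hy => by simp [hy])

lemma hasD_mul (hv : ContDiff ℝ 1 v) {k k' : ℝ → ℝ} (hk : ∀ y, HasDerivAt k (k' y) y) (y : ℝ) :
    HasDerivAt (fun y => v y * (k y : ℂ)) (deriv v y * (k y : ℂ) + v y * (k' y : ℂ)) y :=
  (hasD hv y).mul (hk y).ofReal_comp

/-- the right exponential -/
noncomputable def kr (c y : ℝ) : ℝ := Real.exp (-((y - c) / 2))

/-- the left exponential -/
noncomputable def kl (c y : ℝ) : ℝ := Real.exp ((y - c) / 2)

lemma kr_d (c y : ℝ) : HasDerivAt (kr c) (-(kr c y) / 2) y := by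
  have h : HasDerivAt (fun y : ℝ => -((y - c) / 2)) (-(1 / 2)) y :=
    (((hasDerivAt_id y).sub_const c).div_const 2).neg
  have h2 : HasDerivAt (kr c) (Real.exp (-((y - c) / 2)) * -(1 / 2)) y := h.exp
  have h3 : -(kr c y) / 2 = Real.exp (-((y - c) / 2)) * -(1 / 2) := by
    rw [kr]; ring
  rw [h3]
  exact h2

lemma kl_d (c y : ℝ) : HasDerivAt (kl c) (kl c y / 2) y := by
  have h : HasDerivAt (fun y : ℝ => (y - c) / 2) (1 / 2) y :=
    (((hasDerivAt_id y).sub_const c).div_const 2)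
  have h2 : HasDerivAt (kl c) (Real.exp ((y - c) / 2) * (1 / 2)) y := h.exp
  have h3 : (kl c y) / 2 = Real.exp ((y - c) / 2) * (1 / 2) := by
    rw [kl]; ring
  rw [h3]
  exact h2

lemma kr_cd (c : ℝ) : ContDiff ℝ 1 (kr c) := by unfold kr; fun_prop

lemma kl_cd (c : ℝ) : ContDiff ℝ 1 (kl c) := by unfold kl; fun_prop

lemma int_mul (hv : Continuous v) (hs : HasCompactSupport v) {k : ℝ → ℝ} (hk : Continuous k) :
    Integrable (fun y => v y * (k y : ℂ)) :=
  (hv.mul (Complex.continuous_ofReal.comp hk)).integrable_of_hasCompactSupport (cs_mul hs k)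

lemma z_right (hv : ContDiff ℝ 1 v) (hs : HasCompactSupport v) (c : ℝ) :
    ∫ y in Ioi c, (deriv v y + v y / 2) * (kr c y : ℂ) =
      -v c + ∫ y in Ioi c, v y * (kr c y : ℂ) := by
  have h := (cs_mul hs (kr c)).integral_Ioi_deriv_eq (cd_mul hv (kr_cd c)) c
  have h1 : (kr c c : ℂ) = 1 := by simp [kr]
  rw [h1, mul_one] at h
  rw [← h, ← integral_add]
  · refine integral_congr_ae (Eventually.of_forall fun y => ?_)
    simp only
    rw [(hasD_mul hv (kr_d c) y).deriv]
    push_cast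
    ring
  · exact ((cd_mul hv (kr_cd c)).continuous_deriv le_rfl).integrable_of_hasCompactSupport
      (cs_mul hs (kr c)).deriv |>.integrableOn
  · exact (int_mul hv.continuous hs (kr_cd c).continuous).integrableOn

lemma z_left (hv : ContDiff ℝ 1 v) (hs : HasCompactSupport v) (c : ℝ) :
    ∫ y in Iic c, (deriv v y - v y / 2) * (kl c y : ℂ) =
      v c - ∫ y in Iic c, v y * (kl c y : ℂ) := by
  have h := (cs_mul hs (kl c)).integral_Iic_deriv_eq (cd_mul hv (kl_cd c)) c
  have h1 : (kl c c : ℂ) = 1 := by simp [kl]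
  rw [h1, mul_one] at h
  rw [← h, ← integral_sub]
  · refine integral_congr_ae (Eventually.of_forall fun y => ?_)
    simp only
    rw [(hasD_mul hv (kl_d c) y).deriv]
    push_cast
    ring
  · exact ((cd_mul hv (kl_cd c)).continuous_deriv le_rfl).integrable_of_hasCompactSupport
      (cs_mul hs (kl c)).deriv |>.integrableOn
  · exact (int_mul hv.continuous hs (kl_cd c).continuous).integrableOn

lemma kr_sq (c : ℝ) : ∫ y in Ioi c, kr c y ^ 2 = 1 := by
  have : ∀ y, kr c y ^ 2 = Real.exp c * Real.exp (-y) := by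
    intro y
    rw [kr, ← Real.exp_nat_mul, ← Real.exp_add]
    congr 1
    push_cast
    ring
  simp only [this]
  rw [integral_const_mul, integral_exp_neg_Ioi, ← Real.exp_add]
  simp

lemma kr_sq_int (c : ℝ) : IntegrableOn (fun y => kr c y ^ 2) (Ioi c) := by
  have : ∀ y, kr c y ^ 2 = Real.exp c * Real.exp (-y) := by
    intro y
    rw [kr, ← Real.exp_nat_mul, ← Real.exp_add]
    congr 1
    push_cast
    ring
  simp only [this]
  have h := integral_exp_neg_Ioi c
  refine (Integrable.const_mul ?_ _)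
  by_contra hcon
  rw [integral_undef hcon] at h
  exact (Real.exp_pos _).ne h

lemma kl_sq (c : ℝ) : ∫ y in Iic c, kl c y ^ 2 = 1 := by
  have : ∀ y, kl c y ^ 2 = Real.exp (-c) * Real.exp y := by
    intro y
    rw [kl, ← Real.exp_nat_mul, ← Real.exp_add]
    congr 1
    push_cast
    ring
  simp only [this]
  rw [integral_const_mul, integral_exp_Iic, ← Real.exp_add]
  simp

lemma kl_sq_int (c : ℝ) : IntegrableOn (fun y => kl c y ^ 2) (Iic c) := by
  have : ∀ y, kl c y ^ 2 = Real.exp (-c) * Real.exp y := by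
    intro y
    rw [kl, ← Real.exp_nat_mul, ← Real.exp_add]
    congr 1
    push_cast
    ring
  simp only [this]
  have h := integral_exp_Iic c
  refine (Integrable.const_mul ?_ _)
  by_contra hcon
  rw [integral_undef hcon] at h
  exact (Real.exp_pos _).ne h

/-- Young with a parameter: `‖∫ z k‖ ≤ (∫ ‖z‖² / t + t ∫ k²) / 2` -/
lemma young {s : Set ℝ} {z : ℝ → ℂ} {k : ℝ → ℝ}
    (hz : IntegrableOn (fun y => ‖z y‖ ^ 2) s) (hk : IntegrableOn (fun y => k y ^ 2) s)
    {t : ℝ} (ht : 0 < t) :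
    ‖∫ y in s, z y * (k y : ℂ)‖ ≤ ((∫ y in s, ‖z y‖ ^ 2) / t + t * ∫ y in s, k y ^ 2) / 2 := by
  have h1 : ‖∫ y in s, z y * (k y : ℂ)‖ ≤ ∫ y in s, (‖z y‖ ^ 2 / t + t * k y ^ 2) / 2 := by
    refine norm_integral_le_of_norm_le (((hz.div_const t).add (hk.const_mul t)).div_const 2) ?_
    refine Eventually.of_forall fun y => ?_
    rw [norm_mul, Complex.norm_real, Real.norm_eq_abs]
    have h2 : 0 ≤ (‖z y‖ - t * |k y|) ^ 2 / t := by positivity
    have h3 : (‖z y‖ - t * |k y|) ^ 2 / t = ‖z y‖ ^ 2 / t - 2 * (‖z y‖ * |k y|) + t * |k y| ^ 2 := by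
      field_simp
      ring
    rw [h3, sq_abs] at h2
    linarith
  refine h1.trans (le_of_eq ?_)
  rw [integral_div, integral_add (hz.div_const t) (hk.const_mul t), integral_div,
    integral_const_mul]

/-- from `2 D ≤ e / t + t K` for all `t > 0` to `D² ≤ K e` -/
lemma sq_of_young {D e K : ℝ} (hD : 0 ≤ D) (hK : 0 < K) (he : 0 ≤ e)
    (h : ∀ t : ℝ, 0 < t → 2 * D ≤ e / t + t * K) :
    D ^ 2 ≤ K * e := by
  rcases hD.eq_or_lt with h0 | h0
  · rw [← h0]
    have := mul_nonneg hK.le he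
    simpa using this
  have h1 := h (D / K) (by positivity)
  have h2 : e / (D / K) + D / K * K = e * K / D + D := by
    field_simp
  rw [h2] at h1
  have h3 : D ≤ e * K / D := by linarith
  rw [le_div_iff₀ h0] at h3
  nlinarith

/-- `|v(c) - F|² ≤ e / 2` for the mean `F` -/
lemma center (hv : ContDiff ℝ 1 v) (hs : HasCompactSupport v) (c : ℝ) (F : ℂ)
    (hF : 2 * F = (∫ y in Iic c, v y * (kl c y : ℂ)) + ∫ y in Ioi c, v y * (kr c y : ℂ)) :
    ‖F - v c‖ ^ 2 ≤ 1 / 2 * ee v c := by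
  have hr := z_right hv hs c
  have hl := z_left hv hs c
  have h1 : 2 * (F - v c) = (∫ y in Ioi c, (deriv v y + v y / 2) * (kr c y : ℂ)) -
      ∫ y in Iic c, (deriv v y - v y / 2) * (kl c y : ℂ) := by
    rw [hr, hl, mul_sub, hF]; ring
  have hir : IntegrableOn (fun y => ‖deriv v y + v y / 2‖ ^ 2) (Ioi c) :=
    (int_zr hv hs).integrableOn
  have hil : IntegrableOn (fun y => ‖deriv v y - v y / 2‖ ^ 2) (Iic c) :=
    (int_zl hv hs).integrableOn
  refine sq_of_young (norm_nonneg _) (by norm_num) (ee_nonneg hv hs c) ?_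
  intro t ht
  have h2 : 2 * ‖F - v c‖ = ‖2 * (F - v c)‖ := by rw [norm_mul]; simp
  rw [h2, h1]
  have h3 := young (s := Ioi c) (z := fun y => deriv v y + v y / 2) hir (kr_sq_int c)
    (t := t / 2) (by positivity)
  have h4 := young (s := Iic c) (z := fun y => deriv v y - v y / 2) hil (kl_sq_int c)
    (t := t / 2) (by positivity)
  rw [kr_sq] at h3
  rw [kl_sq] at h4
  refine (norm_sub_le _ _).trans ?_
  rw [e_eq hv hs c]
  have h5 : ∀ a : ℝ, a / (t / 2) = 2 * (a / t) := fun a => by field_simp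
  rw [h5] at h3 h4
  rw [add_div]
  linarith

/-- near `c`, to the right -/
lemma near (hv : ContDiff ℝ 1 v) (hs : HasCompactSupport v) (c y : ℝ) (hy : c ≤ y)
    (hy' : y ≤ c + 1 / 4) :
    ‖v y * (kl c y : ℂ) - v c‖ ^ 2 ≤ 3 / 10 * ee v c := by
  have hir : IntegrableOn (fun y => ‖deriv v y + v y / 2‖ ^ 2) (Ioi c) :=
    (int_zr hv hs).integrableOn
  have h1 : v y * (kl c y : ℂ) - v c = ∫ s in Ioc c y, (deriv v s + v s / 2) * (kl c s : ℂ) := by
    have h := intervalIntegral.integral_eq_sub_of_hasDerivAt (a := c) (b := y)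
      (f := fun y => v y * (kl c y : ℂ))
      (f' := fun y => deriv v y * (kl c y : ℂ) + v y * ((kl c y / 2 : ℝ) : ℂ))
      (fun x _ => hasD_mul hv (kl_d c) x) ?_
    · rw [intervalIntegral.integral_of_le hy] at h
      have h0 : (kl c c : ℂ) = 1 := by simp [kl]
      rw [h0, mul_one] at h
      rw [← h]
      refine integral_congr_ae (Eventually.of_forall fun y => ?_)
      simp only
      push_cast
      ring
    · have hk := (kl_cd c).continuous
      exact ((((cont_d hv).mul (Complex.continuous_ofReal.comp hk)).add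
        (hv.continuous.mul (Complex.continuous_ofReal.comp (hk.div_const 2))))).intervalIntegrable
          _ _
  have hkc : Continuous fun s => kl c s ^ 2 := (kl_cd c).continuous.pow 2
  have hK : ∫ s in Ioc c y, kl c s ^ 2 ≤ 3 / 10 := by
    have h2 : ∀ s, kl c s ^ 2 = Real.exp (-c) * Real.exp s := by
      intro s
      rw [kl, ← Real.exp_nat_mul, ← Real.exp_add]
      congr 1
      push_cast
      ring
    simp only [h2]
    rw [← intervalIntegral.integral_of_le hy, intervalIntegral.integral_const_mul, integral_exp,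
      mul_sub, ← Real.exp_add, ← Real.exp_add]
    have h3 : Real.exp (-c + c) = 1 := by simp
    rw [h3]
    have h4 : Real.exp (-c + y) ≤ Real.exp (1 / 4) := Real.exp_le_exp.mpr (by linarith)
    have h5 : Real.exp (1 / 4) ≤ 13 / 10 := by
      have h6 : Real.exp (1 / 4) ^ 4 < (13 / 10 : ℝ) ^ 4 := by
        rw [← Real.exp_nat_mul]
        have := Real.exp_one_lt_d9
        norm_num
        linarith
      exact (lt_of_pow_lt_pow_left₀ 4 (by norm_num) h6).le
    linarith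
  refine sq_of_young (norm_nonneg _) (by norm_num) (ee_nonneg hv hs c) ?_
  intro t ht
  rw [h1]
  have h3 := young (s := Ioc c y) (z := fun y => deriv v y + v y / 2)
    (hir.mono_set Ioc_subset_Ioi_self) (hkc.integrableOn_Ioc) ht
  have h4 : ∫ s in Ioc c y, ‖deriv v s + v s / 2‖ ^ 2 ≤ ee v c := by
    rw [e_eq hv hs c]
    have h5 : 0 ≤ ∫ y in Iic c, ‖deriv v y - v y / 2‖ ^ 2 :=
      integral_nonneg fun _ => by positivity
    have h6 : ∫ s in Ioc c y, ‖deriv v s + v s / 2‖ ^ 2 ≤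
        ∫ s in Ioi c, ‖deriv v s + v s / 2‖ ^ 2 :=
      setIntegral_mono_set hir (Eventually.of_forall fun _ => by positivity)
        Ioc_subset_Ioi_self.eventuallyLE
    linarith
  have h5 : (∫ s in Ioc c y, ‖deriv v s + v s / 2‖ ^ 2) / t ≤ ee v c / t := by gcongr
  have h6 : t * (∫ s in Ioc c y, kl c s ^ 2) ≤ t * (3 / 10) := by gcongr
  linarith

/-- the slice inequality -/
theorem slice (hv : ContDiff ℝ 1 v) (hs : HasCompactSupport v) (c y : ℝ) (hy : c ≤ y)
    (hy' : y ≤ c + 1 / 4) (F : ℂ)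
    (hF : 2 * F = ∫ y, v y * (Real.exp (-(|y - c| / 2)) : ℂ)) :
    ‖v y - F * (Real.exp (-(|y - c| / 2)) : ℂ)‖ ^ 2 ≤ 8 / 5 * ee v c := by
  have hF' : 2 * F = (∫ y in Iic c, v y * (kl c y : ℂ)) + ∫ y in Ioi c, v y * (kr c y : ℂ) := by
    rw [hF, split (int_mul hv.continuous hs (by fun_prop)) c]
    congr 1
    · refine setIntegral_congr_fun measurableSet_Iic fun s hs => ?_
      have : s ≤ c := hs
      simp only [kl]
      rw [abs_of_nonpos (by linarith)]
      congr 4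
      ring
    · refine setIntegral_congr_fun measurableSet_Ioi fun s hs => ?_
      have : c < s := hs
      simp only [kr]
      rw [abs_of_nonneg (by linarith)]
  have h1 := center hv hs c F hF'
  have h2 := near hv hs c y hy hy'
  have h3 : (Real.exp (-(|y - c| / 2)) : ℝ) = kr c y := by
    rw [kr, abs_of_nonneg (by linarith)]
  rw [h3]
  have h4 : (kr c y : ℂ) * (kl c y : ℂ) = 1 := by
    rw [← Complex.ofReal_mul, kr, kl, ← Real.exp_add]
    simp
  have h5 : v y - F * (kr c y : ℂ) = (kr c y : ℂ) * ((v y * (kl c y : ℂ) - v c) - (F - v c)) := by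
    have : v y = (kr c y : ℂ) * (v y * (kl c y : ℂ)) := by
      rw [mul_left_comm, h4, mul_one]
    calc v y - F * (kr c y : ℂ) = (kr c y : ℂ) * (v y * (kl c y : ℂ)) - F * (kr c y : ℂ) := by
          rw [← this]
      _ = _ := by ring
  rw [h5, norm_mul, mul_pow]
  have h6 : ‖(kr c y : ℂ)‖ ≤ 1 := by
    rw [Complex.norm_real, Real.norm_eq_abs, kr, abs_of_pos (Real.exp_pos _)]
    exact Real.exp_le_one_iff.mpr (by linarith)
  have h7 : ‖(kr c y : ℂ)‖ ^ 2 ≤ 1 := pow_le_one₀ (norm_nonneg _) h6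
  have h8 : ‖(v y * (kl c y : ℂ) - v c) - (F - v c)‖ ^ 2 ≤
      2 * ‖v y * (kl c y : ℂ) - v c‖ ^ 2 + 2 * ‖F - v c‖ ^ 2 := by
    have := norm_sub_le (v y * (kl c y : ℂ) - v c) (F - v c)
    nlinarith [sq_nonneg (‖v y * (kl c y : ℂ) - v c‖ - ‖F - v c‖),
      norm_nonneg ((v y * (kl c y : ℂ) - v c) - (F - v c))]
  calc _ ≤ 1 * ‖(v y * (kl c y : ℂ) - v c) - (F - v c)‖ ^ 2 := by gcongr
    _ ≤ _ := by linarith

/-- the slice inequality in the direction across the step -/
lemma across (hv : ContDiff ℝ 1 v) (hs : HasCompactSupport v) (a : ℝ) :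
    5 / 4 * ‖v a‖ ^ 2 ≤ ∫ y in Ioi a, (‖deriv v y‖ ^ 2 + 25 / 16 * ‖v y‖ ^ 2) := by
  have h := norm_right hv hs a
  have h1 : 5 / 4 * ‖v a‖ ^ 2 = ∫ y in Ioi a, -(5 / 2) * ⟪v y, deriv v y⟫_ℝ := by
    rw [integral_const_mul] at h ⊢
    linarith
  rw [h1]
  refine integral_mono ((int_in hv hs).const_mul _).integrableOn
    (((int_d hv hs).add ((int_v hv hs).const_mul _)).integrableOn) fun y => ?_
  have h2 := abs_real_inner_le_norm (v y) (deriv v y)
  have h3 := abs_le.mp h2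
  simp only
  nlinarith [sq_nonneg (‖deriv v y‖ - 5 / 4 * ‖v y‖), h3.1]

end slice

end Pool.Agent.U492.DE
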